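import Pool.Agent.N42.DQ.Real4
import Pool.Agent.N718.GC.Stm

/-!
# GC/REALS: signs on finitely many intervals (helper935)

From the general theorem `gen` of N42/DQ/Real4.lean, applied to every single sign pattern.
-/

set_option autoImplicit false
set_option linter.all false

namespace Pool.Agent.N935.GC

open Finset Pool.Agent.N718.DC Pool.Agent.N718.GC
open Pool.Agent.N42.DQ (Pat gen)

/-- the vectors with the signs `s` -/
def Gs {ι : Type} (s : ι → ℤ) (v : ι → ℝ) : Prop := ∀ k, 0 < (s k : ℝ) * v k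

theorem pat_s {ι : Type} (s : ι → ℤ) : Pat (Gs s) := by
  constructor
  · intro v h k hk
    have := h k
    rw [hk, mul_zero] at this
    exact lt_irrefl _ this
  · intro v w h hvw k
    have h1 := mul_pos (h k) (hvw k)
    have h2 : (s k : ℝ) * v k * (v k * w k) = (v k) ^ 2 * ((s k : ℝ) * w k) := by ring
    rw [h2] at h1
    exact pos_of_mul_pos_right h1 (sq_nonneg _)

theorem reals_ (h : Pool.Agent.N718.DC.S_ORTHO) : S_REALS := by
  classical
  intro ι _ _ e U hU η hη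
  obtain ⟨T, hT⟩ : ∃ T : Finset (ι → ℤ), ∀ s, s ∈ T ↔ ∀ k, s k = 1 ∨ s k = -1 :=
    ⟨Fintype.piFinset (fun _ => ({1, -1} : Finset ℤ)), fun s => by
      simp [Fintype.mem_piFinset]⟩
  have hη' : 0 < η / (T.card + 1) := by positivity
  have hgen := fun s : ι → ℤ => gen h e (Gs s) (pat_s s) U hU (η / (T.card + 1)) hη'
  choose Z H₀ hZ hH using hgen
  refine ⟨T.biUnion Z, T.sup H₀, ?_, fun H hH' => ?_⟩
  · intro w hw
    obtain ⟨s, hs, hw'⟩ := mem_biUnion.1 hw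
    exact hZ s w hw'
  · set L : ℝ := ((2 * H + 1 : ℕ) : ℝ) ^ ncI e with hL
    have hL0 : 0 ≤ L := by positivity
    set Q : (ι → ℤ) → Finset ((k : ι) → Fin (e k + 2) → ℤ) := fun s' =>
      (BXI e H).filter (fun c => (∃ z ∈ U, Gs s' fun k => fmv (c k) 1 z) ∧
        ¬ ∃ w ∈ Z s', ∃ s : ι → ℤ, (∀ k, s k = 1 ∨ s k = -1) ∧ (Gs s' fun k => (s k : ℝ)) ∧
          ∀ k, ∀ z : ℝ, w.1 < z → z < w.2 → 0 < (s k : ℝ) * fmv (c k) 1 z) with hQ
    have hsub : ((BXI e H).filter (fun c => ∃ s : ι → ℤ, (∀ k, s k = 1 ∨ s k = -1) ∧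
      (∃ z ∈ U, ∀ k, 0 < (s k : ℝ) * fmv (c k) 1 z) ∧
      ¬ ∃ w ∈ T.biUnion Z, ∀ k, ∀ z : ℝ, w.1 < z → z < w.2 → 0 < (s k : ℝ) * fmv (c k) 1 z)) ⊆
        T.biUnion Q := by
      intro c hc
      obtain ⟨hcB, s, hs, hz, hn⟩ := mem_filter.1 hc
      refine mem_biUnion.2 ⟨s, (hT s).2 hs, mem_filter.2 ⟨hcB, hz, ?_⟩⟩
      rintro ⟨w, hw, s', hs', hG, hI⟩
      have hss : s' = s := by
        funext k
        have h1 : (0 : ℝ) < (s k : ℝ) * (s' k : ℝ) := hG k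
        have h2 : 0 < s k * s' k := by exact_mod_cast h1
        rcases hs k with h3 | h3 <;> rcases hs' k with h4 | h4 <;> rw [h3, h4] at h2 ⊢ <;> omega
      subst hss
      exact hn ⟨w, mem_biUnion.2 ⟨s', (hT s').2 hs, hw⟩, hI⟩
    have hcard : ∀ s ∈ T, ((Q s).card : ℝ) ≤ η / (T.card + 1) * L := fun s hs =>
      hH s H ((Finset.le_sup (f := H₀) hs).trans hH')
    have h1 : (((BXI e H).filter (fun c => ∃ s : ι → ℤ, (∀ k, s k = 1 ∨ s k = -1) ∧
      (∃ z ∈ U, ∀ k, 0 < (s k : ℝ) * fmv (c k) 1 z) ∧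
      ¬ ∃ w ∈ T.biUnion Z, ∀ k, ∀ z : ℝ, w.1 < z → z < w.2 →
        0 < (s k : ℝ) * fmv (c k) 1 z)).card : ℝ) ≤ ∑ s ∈ T, ((Q s).card : ℝ) := by
      have h2 := (card_le_card hsub).trans card_biUnion_le
      exact_mod_cast h2
    refine h1.trans ((sum_le_sum hcard).trans ?_)
    rw [sum_const, nsmul_eq_mul]
    have h3 : (T.card : ℝ) * (η / (T.card + 1) * L) = (T.card / (T.card + 1)) * (η * L) := by
      field_simp
    rw [h3]
    have h4 : (T.card : ℝ) / (T.card + 1) ≤ 1 := by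
      rw [div_le_one (by positivity)]
      linarith
    have h5 : 0 ≤ η * L := by positivity
    calc (T.card : ℝ) / (T.card + 1) * (η * L) ≤ 1 * (η * L) := by gcongr
      _ = _ := one_mul _

end Pool.Agent.N935.GC
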